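import Pool.Agent.H65.PartPos

set_option autoImplicit false

namespace Pool.Agent.Results.MP_bbb74b_al.Counter

/-- In every rank `r ≥ 3` there is a partially positive word that no automorphism
sends to a positive word. -/
theorem result (r : ℕ) (hr : 3 ≤ r) : ∃ w : FreeGroup (Fin r),
    (∃ a : Fin r, (a, true) ∈ w.toWord ∧ (a, false) ∉ w.toWord) ∧
    ∀ φ : MulAut (FreeGroup (Fin r)),
      φ w ∉ Submonoid.closure (Set.range (FreeGroup.of : Fin r → FreeGroup (Fin r))) :=
  Pool.Agent.H65.PartPos.main hr

end Pool.Agent.Results.MP_bbb74b_al.Counter
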